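import Pool.Agent.Helper75.Reducts.Types

/-!
# Existence of invariant ultrafilters on orbits of connected groups
-/

namespace Reducts

open Equiv MulAction
open scoped Pointwise

namespace Ctx

variable {M : Type*} [Group M] (X : Ctx M) {Ω : Type*} [MulAction M Ω]

/-- `N`-invariant ideals of continuous subsets of `Ω` not containing `Z`. -/
structure IsIdl (N : Subgroup M) (Z : Set Ω) (J : Set (Set Ω)) : Prop where
  cont : ∀ P ∈ J, X.Cont P
  empty : ∅ ∈ J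
  union : ∀ P ∈ J, ∀ Q ∈ J, P ∪ Q ∈ J
  mono : ∀ P ∈ J, ∀ Q, X.Cont Q → Q ⊆ P → Q ∈ J
  inv : ∀ n ∈ N, ∀ P ∈ J, n • P ∈ J
  proper : Z ∉ J

variable {X}

theorem IsIdl.biUnion {N : Subgroup M} {Z : Set Ω} {J : Set (Set Ω)} (hJ : X.IsIdl N Z J)
    {ι : Type*} {F : Set ι} (hF : F.Finite) (f : ι → Set Ω) (hf : ∀ i ∈ F, f i ∈ J) :
    (⋃ i ∈ F, f i) ∈ J := by
  classical
  induction F, hF using Set.Finite.induction_on with
  | empty => simpa using hJ.empty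
  | insert _ _ ih =>
    rw [Set.biUnion_insert]
    exact hJ.union _ (hf _ (Set.mem_insert _ _)) _
      (ih (fun i hi => hf i (Set.mem_insert_of_mem _ hi)))

theorem cont_biUnion {ι : Type*} {F : Set ι} (hF : F.Finite) (f : ι → Set Ω)
    (hf : ∀ i ∈ F, X.Cont (f i)) : X.Cont (⋃ i ∈ F, f i) := by
  classical
  induction F, hF using Set.Finite.induction_on with
  | empty => simpa using cont_empty
  | insert _ _ ih =>
    rw [Set.biUnion_insert]
    exact (hf _ (Set.mem_insert _ _)).union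
      (ih (fun i hi => hf i (Set.mem_insert_of_mem _ hi)))

/-- a maximal invariant proper ideal. -/
theorem exists_max_idl {N : Subgroup M} {Z : Set Ω} (hZ : Z.Nonempty) :
    ∃ J, X.IsIdl N Z J ∧ ∀ J', X.IsIdl N Z J' → J ⊆ J' → J' = J := by
  have h0 : X.IsIdl N Z {∅} := by
    refine ⟨?_, rfl, ?_, ?_, ?_, ?_⟩
    · rintro P rfl
      exact cont_empty
    · rintro P rfl Q rfl
      simp
    · rintro P rfl Q _ hQ
      exact Set.subset_empty_iff.1 hQ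
    · rintro n _ P rfl
      simp
    · intro h
      exact hZ.ne_empty h
  obtain ⟨J, -, hJ⟩ := zorn_subset_nonempty {J | X.IsIdl N Z J} (by
    intro c hc hch hne
    obtain ⟨J0, hJ0⟩ := hne
    refine ⟨⋃₀ c, ⟨?_, ⟨J0, hJ0, (hc hJ0).empty⟩, ?_, ?_, ?_, ?_⟩,
      fun s hs => Set.subset_sUnion_of_mem hs⟩
    · rintro P ⟨J, hJ, hP⟩
      exact (hc hJ).cont P hP
    · rintro P ⟨J, hJ, hP⟩ Q ⟨J', hJ', hQ⟩
      rcases hch.total hJ hJ' with h | h
      · exact ⟨J', hJ', (hc hJ').union P (h hP) Q hQ⟩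
      · exact ⟨J, hJ, (hc hJ).union P hP Q (h hQ)⟩
    · rintro P ⟨J, hJ, hP⟩ Q hQ hQP
      exact ⟨J, hJ, (hc hJ).mono P hP Q hQ hQP⟩
    · rintro n hn P ⟨J, hJ, hP⟩
      exact ⟨J, hJ, (hc hJ).inv n hn P hP⟩
    · rintro ⟨J, hJ, hP⟩
      exact (hc hJ).proper hP) _ h0
  exact ⟨J, hJ.prop, fun J' hJ' hle => (hJ.eq_of_subset hJ' hle).symm⟩

/-- the orbit of `a` meets only finitely many `φ(G_T)`-classes. -/
theorem exists_reps' (N : Subgroup M) (T : Finset ℕ) {a : Ω} (ha : X.Cont a) :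
    ∃ F : Set Ω, F.Finite ∧ ∀ b ∈ orb N a, ∃ f ∈ F, ∃ g, Fx T g ∧ b = X.φ g • f := by
  obtain ⟨F, hF, h1⟩ := X.fin T ha
  refine ⟨(fun f => f • a) '' F, hF.image _, ?_⟩
  rintro b ⟨n, _, rfl⟩
  obtain ⟨g, hg, f, hf, u, hu, rfl⟩ := h1 n
  refine ⟨f • a, Set.mem_image_of_mem _ hf, g, hg, ?_⟩
  rw [mul_smul, mul_smul, mem_stabilizer_iff.1 hu]

variable (X) in
/-- the classes of `F` on which `P` is large. -/
def big (F : Set Ω) (T0 : Finset ℕ) (d : ℕ) (P : Set Ω) : Set Ω :=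
  {f ∈ F | ∀ T : Finset ℕ, ∃ b ∈ P, (∃ g, Fx T0 g ∧ b = X.φ g • f) ∧ d ≤ (X.sp b \ T).card}

theorem big_mono {F : Set Ω} {T0 : Finset ℕ} {d : ℕ} {P P' : Set Ω} (h : P ⊆ P') :
    X.big F T0 d P ⊆ X.big F T0 d P' := by
  rintro f ⟨hf, h1⟩
  refine ⟨hf, fun T => ?_⟩
  obtain ⟨b, hb, h2⟩ := h1 T
  exact ⟨b, h hb, h2⟩

theorem big_nonempty {N : Subgroup M} {a : Ω} {F : Set Ω} (hF : F.Finite) {T0 : Finset ℕ} {d : ℕ}
    (hrep : ∀ b ∈ orb N a, ∃ f ∈ F, ∃ g, Fx T0 g ∧ b = X.φ g • f) {P : Set Ω}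
    (hP : P ⊆ orb N a) (h : ∀ T : Finset ℕ, ∃ b ∈ P, d ≤ (X.sp b \ T).card) :
    (X.big F T0 d P).Nonempty := by
  classical
  by_contra hcon
  have h1 : ∀ f ∈ F, ∃ T : Finset ℕ, ∀ b ∈ P, (∃ g, Fx T0 g ∧ b = X.φ g • f) →
      (X.sp b \ T).card < d := by
    intro f hf
    by_contra h2
    push Not at h2
    exact hcon ⟨f, hf, fun T => by
      obtain ⟨b, hb, h3, h4⟩ := h2 T
      exact ⟨b, hb, h3, h4⟩⟩
  choose! T hT using h1
  obtain ⟨b, hb, hd⟩ := h (hF.toFinset.biUnion T)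
  obtain ⟨f, hf, g, hg, hbf⟩ := hrep b (hP hb)
  have h2 := hT f hf b hb ⟨g, hg, hbf⟩
  have h3 : (X.sp b \ hF.toFinset.biUnion T).card ≤ (X.sp b \ T f).card := by
    apply Finset.card_le_card
    apply Finset.sdiff_subset_sdiff subset_rfl
    exact Finset.subset_biUnion_of_mem T (hF.mem_toFinset.2 hf)
  omega

theorem big_disjoint {N : Subgroup M} {a : Ω} (ha : X.Cont a) {F : Set Ω} {T0 : Finset ℕ} {d : ℕ}
    {P P' : Set Ω} (hP : X.Cont P) (hP' : X.Cont P') (hPN : P ⊆ orb N a) (hPN' : P' ⊆ orb N a)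
    (hPd : ∀ b ∈ P, (X.sp b \ T0).card ≤ d) (hPd' : ∀ b ∈ P', (X.sp b \ T0).card ≤ d)
    (hdis : P ∩ P' = ∅) : X.big F T0 d P ∩ X.big F T0 d P' = ∅ := by
  classical
  rw [Set.eq_empty_iff_forall_notMem]
  rintro f ⟨⟨_, h1⟩, ⟨_, h2⟩⟩
  obtain ⟨b, hb, ⟨g, hg, hbf⟩, hd⟩ := h1 (T0 ∪ (X.sp P ∪ X.sp P'))
  obtain ⟨b', hb', ⟨g', hg', hbf'⟩, hd'⟩ := h2 (T0 ∪ (X.sp P ∪ X.sp P'))
  have hcb : X.Cont b := by
    obtain ⟨n, _, rfl⟩ := hPN hb
    exact ha.smul n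
  -- supports
  have key : ∀ c : Ω, (X.sp c \ T0).card ≤ d →
      d ≤ (X.sp c \ (T0 ∪ (X.sp P ∪ X.sp P'))).card → ∀ i ∈ X.sp c, i ∉ T0 →
      i ∉ T0 ∪ (X.sp P ∪ X.sp P') := by
    intro c h3 h4 i hi hi0
    have h5 : X.sp c \ (T0 ∪ (X.sp P ∪ X.sp P')) = X.sp c \ T0 := by
      apply Finset.eq_of_subset_of_card_le
      · exact Finset.sdiff_subset_sdiff subset_rfl Finset.subset_union_left
      · omega
    have h6 : i ∈ X.sp c \ T0 := Finset.mem_sdiff.2 ⟨hi, hi0⟩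
    rw [← h5] at h6
    exact (Finset.mem_sdiff.1 h6).2
  have hbb' : b' = X.φ (g' * g⁻¹) • b := by
    rw [hbf', hbf, map_mul, map_inv, mul_smul, inv_smul_smul]
  have hfx : Fx T0 (g' * g⁻¹) := hg'.mul hg.inv
  have hf1 : FreshM T0 (X.sp b) (T0 ∪ (X.sp P ∪ X.sp P')) (g' * g⁻¹) := by
    refine ⟨hfx, fun i hi hi0 => ?_⟩
    apply key b' (hPd' b' hb') hd'
    · rw [hbb', sp_smul hcb]
      exact Finset.mem_image_of_mem _ hi
    · intro h3
      have h4 := hfx _ h3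
      have h5 := (g' * g⁻¹).injective h4
      rw [h5] at h3
      exact hi0 h3
  have hf2 : FreshM T0 (X.sp b) (T0 ∪ (X.sp P ∪ X.sp P')) 1 :=
    ⟨Fx.one _, fun i hi hi0 => key b (hPd b hb) hd i hi hi0⟩
  obtain ⟨k, hk, hk2⟩ := fresh_conj hf2 hf1
  have h3 : X.φ k • b = b' := by
    rw [hbb']
    apply smul_eq_of_agree hcb
    intro i hi
    exact hk2 i hi
  have h4 : X.φ k • P = P := by
    apply (sup_sp hP).smul_eq
    apply hk.mono
    intro i hi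
    simp [hi]
  have h5 : b' ∈ P := by
    rw [← h3, ← h4]
    exact Set.smul_mem_smul_set hb
  have h6 : b' ∈ P ∩ P' := ⟨h5, hb'⟩
  rw [hdis] at h6
  exact h6

theorem exists_atom {N : Subgroup M} {a : Ω} (ha : X.Cont a)
    {J : Set (Set Ω)} (hJ : X.IsIdl N (orb N a) J) (hN : X.opn N) :
    ∃ P0, X.Cont P0 ∧ P0 ⊆ orb N a ∧ P0 ∉ J ∧ ∀ P, X.Cont P → P0 ∩ P ∈ J ∨ P0 \ P ∈ J := by
  classical
  have hex : ∃ d : ℕ, ∃ P : Set Ω, X.Cont P ∧ P ⊆ orb N a ∧ P ∉ J ∧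
      ∃ T0 : Finset ℕ, ∀ b ∈ P, (X.sp b \ T0).card ≤ d := by
    obtain ⟨K, hK⟩ := exists_bound ha
    refine ⟨K, orb N a, cont_orb hN a, subset_rfl, hJ.proper, ∅, ?_⟩
    rintro b ⟨n, _, rfl⟩
    rw [Finset.sdiff_empty]
    exact hK n
  obtain ⟨P1, hP1, hP1N, hP1J, T0, hT0⟩ := Nat.find_spec hex
  have hmin := fun m => Nat.find_min (H := hex) (m := m)
  generalize Nat.find hex = d at hT0 hmin
  have hlarge : ∀ P : Set Ω, X.Cont P → P ⊆ orb N a → P ∉ J →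
      ∀ T : Finset ℕ, ∃ b ∈ P, d ≤ (X.sp b \ T).card := by
    intro P hP hPN hPJ T
    by_contra hcon
    push Not at hcon
    rcases Nat.eq_zero_or_pos d with h0 | hpos
    · have : P = ∅ := by
        rw [Set.eq_empty_iff_forall_notMem]
        intro b hb
        have := hcon b hb
        omega
      rw [this] at hPJ
      exact hPJ hJ.empty
    · exact hmin (d - 1) (by omega) ⟨P, hP, hPN, hPJ, T, fun b hb => by
        have := hcon b hb
        omega⟩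
  obtain ⟨F, hF, hrep⟩ := exists_reps' N T0 ha
  have hex2 : ∃ n : ℕ, ∃ P : Set Ω, X.Cont P ∧ P ⊆ P1 ∧ P ∉ J ∧ (X.big F T0 d P).ncard = n :=
    ⟨_, P1, hP1, subset_rfl, hP1J, rfl⟩
  obtain ⟨P0, hP0, hP01, hP0J, hcard⟩ := Nat.find_spec hex2
  have hmin2 := fun m => Nat.find_min' (H := hex2) (m := m)
  rw [← hcard] at hmin2
  refine ⟨P0, hP0, hP01.trans hP1N, hP0J, fun P hP => ?_⟩
  by_contra hcon
  push Not at hcon
  obtain ⟨h1, h2⟩ := hcon
  have s1 : P0 ∩ P ⊆ P1 := Set.inter_subset_left.trans hP01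
  have s2 : P0 \ P ⊆ P1 := Set.sdiff_subset.trans hP01
  have c1 : X.Cont (P0 ∩ P) := hP0.inter hP
  have c2 : X.Cont (P0 \ P) := hP0.diff hP
  have hfin : (X.big F T0 d P0).Finite := hF.subset (fun f hf => hf.1)
  have h3 := hmin2 _ ⟨P0 ∩ P, c1, s1, h1, rfl⟩
  have h4 : X.big F T0 d (P0 ∩ P) = X.big F T0 d P0 :=
    Set.eq_of_subset_of_ncard_le (big_mono Set.inter_subset_left) h3 hfin
  obtain ⟨f, hf⟩ := big_nonempty hF hrep (s2.trans hP1N) (hlarge _ c2 (s2.trans hP1N) h2)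
  have h5 : f ∈ X.big F T0 d (P0 ∩ P) := by
    rw [h4]
    exact big_mono Set.sdiff_subset hf
  have h6 := big_disjoint (F := F) (T0 := T0) (d := d) ha c1 c2 (s1.trans hP1N) (s2.trans hP1N)
    (fun b hb => hT0 b (s1 hb)) (fun b hb => hT0 b (s2 hb)) (by
      ext x
      simp only [Set.mem_inter_iff, Set.mem_sdiff, Set.mem_empty_iff_false]
      tauto)
  have h7 : f ∈ X.big F T0 d (P0 ∩ P) ∩ X.big F T0 d (P0 \ P) := ⟨h5, hf⟩
  rw [h6] at h7
  exact h7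

theorem smul_sdiff' (m : M) (P Q : Set Ω) : m • (P \ Q) = (m • P) \ (m • Q) :=
  Set.smul_set_sdiff

theorem exists_gen {N : Subgroup M} (hN : X.Cn N) {a : Ω} (ha : X.Cont a) :
    ∃ U, X.IsGen N a U := by
  classical
  obtain ⟨J, hJ, hmax⟩ := exists_max_idl (X := X) (N := N) (Z := orb N a) ⟨a, mem_orb_self N a⟩
  obtain ⟨P0, hP0, hP0N, hP0J, hat⟩ := exists_atom ha hJ hN.opn
  -- finitely many translates of `P0` cover the orbit modulo `J`
  have hcov : ∃ F : Set M, F.Finite ∧ (∀ f ∈ F, f ∈ N) ∧ ∃ j ∈ J,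
      orb N a ⊆ j ∪ ⋃ f ∈ F, f • P0 := by
    by_contra hcon
    let J' : Set (Set Ω) := {Q | X.Cont Q ∧ ∃ F : Set M, F.Finite ∧ (∀ f ∈ F, f ∈ N) ∧ ∃ j ∈ J,
      Q ⊆ j ∪ ⋃ f ∈ F, f • P0}
    have hJ' : X.IsIdl N (orb N a) J' := by
      refine ⟨fun P hP => hP.1, ?_, ?_, ?_, ?_, ?_⟩
      · exact ⟨cont_empty, ∅, Set.finite_empty, by simp, ∅, hJ.empty, by simp⟩
      · rintro P ⟨hP, F, hF, hFN, j, hj, hPj⟩ Q ⟨hQ, F', hF', hFN', j', hj', hQj⟩
        refine ⟨hP.union hQ, F ∪ F', hF.union hF', ?_, j ∪ j', hJ.union _ hj _ hj', ?_⟩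
        · rintro f (hf | hf)
          · exact hFN f hf
          · exact hFN' f hf
        · rw [Set.biUnion_union]
          rintro x (hx | hx)
          · rcases hPj hx with h | h
            · exact Or.inl (Or.inl h)
            · exact Or.inr (Or.inl h)
          · rcases hQj hx with h | h
            · exact Or.inl (Or.inr h)
            · exact Or.inr (Or.inr h)
      · rintro P ⟨hP, F, hF, hFN, j, hj, hPj⟩ Q hQ hQP
        exact ⟨hQ, F, hF, hFN, j, hj, hQP.trans hPj⟩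
      · rintro n hn P ⟨hP, F, hF, hFN, j, hj, hPj⟩
        refine ⟨hP.smul n, (fun f => n * f) '' F, hF.image _, ?_, n • j, hJ.inv n hn j hj, ?_⟩
        · rintro _ ⟨f, hf, rfl⟩
          exact N.mul_mem hn (hFN f hf)
        · rintro _ ⟨x, hx, rfl⟩
          rcases hPj hx with h | h
          · exact Or.inl (Set.smul_mem_smul_set h)
          · right
            rw [Set.mem_iUnion₂] at h ⊢
            obtain ⟨f, hf, hxf⟩ := h
            refine ⟨n * f, Set.mem_image_of_mem _ hf, ?_⟩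
            rw [mul_smul]
            exact Set.smul_mem_smul_set hxf
      · rintro ⟨_, h⟩
        exact hcon h
    have hle : J ⊆ J' := fun P hP => ⟨hJ.cont P hP, ∅, Set.finite_empty, by simp, P, hP, by simp⟩
    have heq := hmax J' hJ' hle
    apply hP0J
    rw [← heq]
    exact ⟨hP0, {1}, Set.finite_singleton _, by simp [N.one_mem], ∅, hJ.empty, by simp⟩
  obtain ⟨F, hF, hFN, j, hj, hcov⟩ := hcov
  have hd : ∀ n ∈ N, P0 ∩ n • P0 ∉ J → P0 \ n • P0 ∈ J := by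
    intro n _ h
    rcases hat (n • P0) (hP0.smul n) with h1 | h1
    · exact absurd h1 h
    · exact h1
  have hJs : ∀ P ∈ J, ∀ n ∈ N, ∀ Q, X.Cont Q → n⁻¹ • Q ⊆ P → Q ∈ J := by
    intro P hP n hn Q hQ h
    refine hJ.mono _ (hJ.inv n hn P hP) Q hQ ?_
    intro x hx
    rw [Set.mem_smul_set_iff_inv_smul_mem]
    exact h (Set.smul_mem_smul_set hx)
  have hinv : ∀ n ∈ N, ∀ P, n • P ∈ J → P ∈ J := by
    intro n hn P hP
    have := hJ.inv n⁻¹ (N.inv_mem hn) _ hP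
    rwa [inv_smul_smul] at this
  -- the subgroup of `N` of the elements almost fixing `P0`
  have hV1 : ∀ n ∈ N, P0 \ n • P0 ∈ J → P0 ∩ n • P0 ∉ J := by
    intro n _ h h1
    apply hP0J
    have := hJ.union _ h _ h1
    rwa [Set.sdiff_union_inter] at this
  let V : Subgroup M :=
    { carrier := {n | n ∈ N ∧ P0 \ n • P0 ∈ J}
      mul_mem' := by
        rintro n m ⟨hn, h⟩ ⟨hm, h'⟩
        refine ⟨N.mul_mem hn hm, ?_⟩
        apply hJ.mono _ (hJ.union _ h _ (hJ.inv n hn _ h')) _ (hP0.diff (hP0.smul _))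
        intro x hx
        by_cases h1 : x ∈ n • P0
        · right
          rw [smul_sdiff', smul_smul]
          exact ⟨h1, hx.2⟩
        · left
          exact ⟨hx.1, h1⟩
      one_mem' := ⟨N.one_mem, by simpa using hJ.empty⟩
      inv_mem' := by
        rintro n ⟨hn, h⟩
        refine ⟨N.inv_mem hn, ?_⟩
        apply hd _ (N.inv_mem hn)
        intro h1
        apply hV1 n hn h
        have h2 := hJ.inv n hn _ h1
        rw [Set.smul_set_inter, smul_inv_smul, Set.inter_comm] at h2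
        exact h2 }
  have hVopn : X.opn V := by
    apply X.opn_mono (X.opn_inf hN.opn hP0)
    intro m hm
    rw [Subgroup.mem_inf, mem_stabilizer_iff] at hm
    refine ⟨hm.1, ?_⟩
    rw [hm.2]
    simpa using hJ.empty
  have hVFI : FI V N := by
    refine ⟨F, hF, fun n hn => ?_⟩
    by_contra hcon
    push Not at hcon
    have h1 : ∀ f ∈ F, n • P0 ∩ f • P0 ∈ J := by
      intro f hf
      by_contra h2
      apply hcon f hf
      have hfn : f⁻¹ * n ∈ N := N.mul_mem (N.inv_mem (hFN f hf)) hn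
      refine ⟨hfn, hd _ hfn ?_⟩
      intro h3
      apply h2
      have h4 := hJ.inv f (hFN f hf) _ h3
      rw [Set.smul_set_inter, smul_smul, mul_inv_cancel_left, Set.inter_comm] at h4
      exact h4
    apply hP0J
    apply hinv n hn
    refine hJ.mono _ (hJ.union _ hj _ (hJ.biUnion hF (fun f => n • P0 ∩ f • P0) h1)) _
      (hP0.smul n) ?_
    intro x hx
    have hxN : x ∈ orb N a := by
      obtain ⟨y, hy, rfl⟩ := hx
      obtain ⟨m, hm, rfl⟩ := hP0N hy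
      exact ⟨n * m, N.mul_mem hn hm, mul_smul _ _ _⟩
    rcases hcov hxN with h | h
    · exact Or.inl h
    · right
      rw [Set.mem_iUnion₂] at h ⊢
      obtain ⟨f, hf, hxf⟩ := h
      exact ⟨f, hf, hx, hxf⟩
  have hNV : N ≤ V := hN.le hVopn hVFI
  refine ⟨{P | X.Cont P ∧ P0 \ P ∈ J}, ⟨fun P hP => hP.1, ?_, ?_, ?_, ?_, ?_⟩, ?_, ?_⟩
  · exact ⟨cont_univ, by simpa using hJ.empty⟩
  · rintro P ⟨hP, h1⟩ Q ⟨hQ, h2⟩
    refine ⟨hP.inter hQ, ?_⟩
    rw [Set.sdiff_inter]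
    exact hJ.union _ h1 _ h2
  · rintro P ⟨hP, h1⟩ Q hQ hPQ
    exact ⟨hQ, hJ.mono _ h1 _ (hP0.diff hQ) (Set.sdiff_subset_sdiff_right hPQ)⟩
  · rintro ⟨_, h⟩
    rw [Set.sdiff_empty] at h
    exact hP0J h
  · intro P hP
    rcases hat P hP with h | h
    · right
      refine ⟨hP.compl, ?_⟩
      rwa [Set.sdiff_compl]
    · left
      exact ⟨hP, h⟩
  · have hstab : ∀ n ∈ N, ∀ P, (X.Cont P ∧ P0 \ P ∈ J) → (X.Cont (n • P) ∧ P0 \ (n • P) ∈ J) := by
      rintro n hn P ⟨hP, h⟩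
      refine ⟨hP.smul n, ?_⟩
      apply hJ.mono _ (hJ.union _ (hNV hn).2 _ (hJ.inv n hn _ h)) _ (hP0.diff (hP.smul n))
      intro x hx
      by_cases h1 : x ∈ n • P0
      · right
        rw [smul_sdiff']
        exact ⟨h1, hx.2⟩
      · left
        exact ⟨hx.1, h1⟩
    intro n hn
    rw [mem_stabilizer_iff]
    ext P
    rw [Set.mem_smul_set_iff_inv_smul_mem]
    constructor
    · intro h
      have := hstab n hn _ h
      rwa [smul_inv_smul] at this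
    · intro h
      exact hstab n⁻¹ (N.inv_mem hn) _ h
  · refine ⟨cont_orb hN.opn a, ?_⟩
    rw [Set.sdiff_eq_empty.2 hP0N]
    exact hJ.empty

end Ctx

end Reducts
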